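import Pool.Agent.H985.Par.StmParG
import Pool.Agent.H996.Par.Low

/-!
# The lower bound for sifted sets in residue classes (task LOWG of helper985; adaptation of
`Pool.Agent.H996.Par.Low`)
-/

set_option autoImplicit false

namespace Pool.Agent.H30.Par

open Polynomial Finset
open scoped Classical
open Pool.Agent.H694.Typ
open Pool.Agent.H985.Par
open Pool.Agent.H996.Par

variable {K : Type} [Field K]

/-- the residue classes of the coordinates in `A` -/
noncomputable def OmG {k : ℕ} (α : Fin k → K[X]) (A : Finset (Fin k)) (P : K[X]) : Finset K[X] :=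
  A.image (fun i => (-α i) %ₘ P)

theorem OmG_card {k : ℕ} (α : Fin k → K[X]) (A : Finset (Fin k)) (P : K[X]) :
    (OmG α A P).card ≤ A.card := card_image_le

theorem OmG_deg {k : ℕ} (α : Fin k → K[X]) (A : Finset (Fin k)) {P : K[X]} (hP : P.Monic) :
    ∀ r ∈ OmG α A P, r.degree < P.degree := by
  intro r hr
  obtain ⟨i, -, rfl⟩ := mem_image.1 hr
  exact degree_modByMonic_lt _ hP

variable [Fintype K]

theorem OmG_lt {k : ℕ} (α : Fin k → K[X]) (A : Finset (Fin k)) {P : K[X]} (hP : P.Monic)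
    (hr : ∃ r : K[X], ∀ i ∈ A, ¬ P ∣ r + α i) :
    (OmG α A P).card < Fintype.card K ^ P.natDegree := by
  obtain ⟨r, hr⟩ := hr
  have hD : ((univ : Finset (Fin P.natDegree → K)).image
      (pol : (Fin P.natDegree → K) → K[X])).card = Fintype.card K ^ P.natDegree := by
    rw [card_image_of_injective _ pol_inj, card_univ, Fintype.card_fun, Fintype.card_fin]
  have hmem : ∀ a : K[X], a.degree < P.degree → a ∈ (univ : Finset (Fin P.natDegree → K)).image
      (pol : (Fin P.natDegree → K) → K[X]) := by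
    intro a ha
    rw [degree_eq_natDegree hP.ne_zero] at ha
    obtain ⟨c, hc⟩ := exists_pol ha
    exact mem_image.2 ⟨c, mem_univ _, hc⟩
  rw [← hD]
  refine card_lt_card ⟨fun a ha => hmem a (OmG_deg α A hP a ha), fun h => ?_⟩
  have h1 := h (hmem (r %ₘ P) (degree_modByMonic_lt _ hP))
  obtain ⟨i, hiA, hi⟩ := mem_image.1 h1
  have h2 : (-α i) %ₘ P = r %ₘ P := hi
  apply hr i hiA
  rw [← dvd_rem, h2]
  refine ⟨r /ₘ P, ?_⟩
  have h3 := modByMonic_add_div r P
  linear_combination -h3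

/-- the irreducible polynomials of degree at most `m` which do not divide `Q` -/
noncomputable def PG (K : Type) [Field K] [Fintype K] (Q : K[X]) (m : ℕ) : Finset K[X] :=
  (PU K m).filter (fun P => ¬ P ∣ Q)

/-- the sifted set contains the image of a sifted window -/
theorem sub_SfsG {k : ℕ} (α : Fin k → K[X]) (A : Finset (Fin k)) (Q r : K[X]) (hQ : Q ≠ 0)
    (n m : ℕ) (hn : Q.natDegree ≤ n) : ∃ f₀ : K[X],
    {u : K[X] | u.degree < ((n - Q.natDegree : ℕ) : WithBot ℕ) ∧
      ∀ P ∈ PG K Q m, ∀ s ∈ OmG α A P, ¬ P ∣ f₀ + Q * u - s}.ncard ≤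
        (SfsG K α A Q r n m).card := by
  have hM : (normalize Q).Monic := monic_normalize hQ
  have hass : Associated (normalize Q) Q := normalize_associated Q
  have hdeg : (normalize Q).degree = Q.degree := degree_normalize
  refine ⟨X ^ n + (r - X ^ n) %ₘ normalize Q, ?_⟩
  set f₀ : K[X] := X ^ n + (r - X ^ n) %ₘ normalize Q with hf₀
  have hdvd : Q ∣ f₀ - r := by
    have h1 := modByMonic_add_div (r - X ^ n) (normalize Q)
    have h2 : f₀ - r = normalize Q * (-((r - X ^ n) /ₘ normalize Q)) := by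
      rw [hf₀]
      linear_combination h1
    rw [h2]
    exact hass.symm.dvd.trans (dvd_mul_right _ _)
  rw [← Set.ncard_coe_finset (SfsG K α A Q r n m)]
  refine Set.ncard_le_ncard_of_injOn (fun u => f₀ + Q * u) ?_ ?_ (Finset.finite_toSet _)
  · rintro u ⟨hu1, hu2⟩
    rw [Finset.mem_coe, SfsG, mem_filter]
    have hQu : ((r - X ^ n) %ₘ normalize Q + Q * u).degree < (n : WithBot ℕ) := by
      refine lt_of_le_of_lt (degree_add_le _ _) (max_lt ?_ ?_)
      · refine lt_of_lt_of_le (degree_modByMonic_lt _ hM) ?_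
        rw [hdeg, degree_eq_natDegree hQ]
        exact_mod_cast hn
      · by_cases hu0 : u = 0
        · rw [hu0, mul_zero, degree_zero]
          exact WithBot.bot_lt_coe _
        · rw [degree_mul, degree_eq_natDegree hQ, degree_eq_natDegree hu0]
          rw [degree_eq_natDegree hu0] at hu1
          have h3 : u.natDegree < n - Q.natDegree := by exact_mod_cast hu1
          have h4 : Q.natDegree + u.natDegree < n := by omega
          exact_mod_cast h4
    obtain ⟨c, hc⟩ := exists_pol hQu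
    have hfe : f₀ + Q * u = X ^ n + pol c := by
      rw [hc, hf₀]
      ring
    refine ⟨?_, ?_, ?_⟩
    · rw [hfe]
      exact mem_Mn.2 ⟨mon_monic c, mon_natDegree c⟩
    · have h5 : f₀ + Q * u - r = (f₀ - r) + Q * u := by ring
      rw [h5]
      exact dvd_add hdvd (dvd_mul_right _ _)
    · intro i hi P hP hPi hPQ hd
      by_contra hcon
      rw [not_lt] at hcon
      refine hu2 P (mem_filter.2 ⟨mem_PU.2 ⟨hP, hPi, hcon⟩, hPQ⟩) ((-α i) %ₘ P)
        (mem_image.2 ⟨i, hi, rfl⟩) ?_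
      rw [dvd_rem]
      exact hd
  · intro a _ b _ h
    have h1 : f₀ + Q * a = f₀ + Q * b := h
    exact mul_left_cancel₀ hQ (add_left_cancel h1)

/-- the polynomials with a large square factor -/
theorem sq_partG {k : ℕ} (n m : ℕ) (α : Fin k → K[X]) (A : Finset (Fin k)) (Q r : K[X])
    (hα : ∀ i, (α i).natDegree < n) :
    (((SfsG K α A Q r n m).filter (fun f => ∃ i ∈ A, ∃ P : K[X], Irreducible P ∧ ¬ P ∣ Q ∧
      P ^ 2 ∣ f + α i)).card : ℝ) ≤ 2 * k * (Fintype.card K : ℝ) ^ n / (Fintype.card K : ℝ) ^ m := by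
  have hq := q_ge (k := K)
  have hsub : (SfsG K α A Q r n m).filter (fun f => ∃ i ∈ A, ∃ P : K[X], Irreducible P ∧
      ¬ P ∣ Q ∧ P ^ 2 ∣ f + α i) ⊆
      (univ : Finset (Fin k)).biUnion (fun i => ((Mn K n).filter
        (fun b => ∃ g : K[X], g.Monic ∧ m < g.natDegree ∧ g ^ 2 ∣ b)).image
          (fun b => b - α i)) := by
    intro f hf
    rw [mem_filter, SfsG, mem_filter] at hf
    obtain ⟨⟨hf1, -, hf2⟩, i, hi, P, hP, hPQ, hPd⟩ := hf
    have hmon := add_mem_Mn hf1 (hα i)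
    rw [mem_biUnion]
    refine ⟨i, mem_univ _, mem_image.2 ⟨f + α i, mem_filter.2 ⟨hmon, ?_⟩, by ring⟩⟩
    have hP0 : P ≠ 0 := hP.ne_zero
    have hass : Associated (normalize P) P := normalize_associated P
    have hN : (normalize P).Monic := monic_normalize hP0
    have hNi : Irreducible (normalize P) := hass.irreducible_iff.2 hP
    have hNd : normalize P ^ 2 ∣ f + α i := by
      rw [pow_two] at hPd ⊢
      exact (Associated.mul_mul hass hass).dvd.trans hPd
    have hNQ : ¬ normalize P ∣ Q := fun h => hPQ (hass.symm.dvd.trans h)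
    exact ⟨normalize P, hN, hf2 i hi _ hN hNi hNQ
      ((Dvd.intro_left _ (pow_two (normalize P)).symm).trans hNd), hNd⟩
  have h1 : (((SfsG K α A Q r n m).filter (fun f => ∃ i ∈ A, ∃ P : K[X], Irreducible P ∧
      ¬ P ∣ Q ∧ P ^ 2 ∣ f + α i)).card : ℝ) ≤
      ∑ i : Fin k, (((Mn K n).filter
        (fun b => ∃ g : K[X], g.Monic ∧ m < g.natDegree ∧ g ^ 2 ∣ b)).card : ℝ) := by
    have := (card_le_card hsub).trans (card_biUnion_le.trans (sum_le_sum fun i _ => card_image_le))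
    exact_mod_cast this
  refine h1.trans ?_
  rw [sum_const, card_univ, Fintype.card_fin, nsmul_eq_mul]
  have h2 := sq_wt (K := K) n m
  have h3 : (0 : ℝ) ≤ k := Nat.cast_nonneg k
  have h4 : (0 : ℝ) ≤ (Fintype.card K : ℝ) ^ n * wt K m := by
    have := wt_nonneg (k := K) m
    positivity
  calc (k : ℝ) * (((Mn K n).filter
        (fun b => ∃ g : K[X], g.Monic ∧ m < g.natDegree ∧ g ^ 2 ∣ b)).card : ℝ)
      ≤ k * ((Fintype.card K : ℝ) ^ n * wt K m) := mul_le_mul_of_nonneg_left h2 h3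
    _ ≤ 2 * (k * ((Fintype.card K : ℝ) ^ n * wt K m)) := by
        have := mul_nonneg h3 h4
        linarith
    _ = 2 * k * (Fintype.card K : ℝ) ^ n / (Fintype.card K : ℝ) ^ m := by
        unfold wt
        rw [div_eq_mul_inv]
        ring

/-- the product over the irreducible polynomials which do not divide `Q` -/
theorem prod_geG (Q : K[X]) (a m : ℕ) (hm : 1 ≤ m) (w : K[X] → ℕ)
    (hw : ∀ P ∈ PG K Q m, w P ≤ a ∧ w P < Fintype.card K ^ P.natDegree) :
    Real.exp (-((a : ℝ) + (8 * (a : ℝ) ^ 3 + 2 * (a : ℝ) ^ 2))) / (m : ℝ) ^ a ≤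
      ∏ P ∈ PG K Q m, (1 - (w P : ℝ) / (Fintype.card K : ℝ) ^ P.natDegree) := by
  have hq := q_ge (k := K)
  have h1 := prod_ge (K := K) a m hm (fun P => if P ∣ Q then 0 else w P) (fun P hP => by
    split_ifs with h
    · refine ⟨Nat.zero_le _, ?_⟩
      have : 0 < Fintype.card K := Fintype.card_pos
      positivity
    · exact hw P (mem_filter.2 ⟨hP, h⟩))
  refine h1.trans (le_of_eq ?_)
  unfold PG
  rw [prod_filter]
  refine prod_congr rfl fun P _ => ?_
  by_cases h : P ∣ Q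
  · simp [h]
  · simp [h]

theorem lowG (hs : S_sw) : S_lowG := by
  intro K _ _ k Q hQ
  obtain ⟨A₀, hA⟩ := hs K k (1 / 2) (by norm_num)
  obtain ⟨c₀, hc₀⟩ : ∃ c₀ : ℝ, c₀ = Real.exp (-((k : ℝ) + (8 * (k : ℝ) ^ 3 + 2 * (k : ℝ) ^ 2))) :=
    ⟨_, rfl⟩
  have hc₀p : 0 < c₀ := by rw [hc₀]; exact Real.exp_pos _
  have hq := q_ge (k := K)
  have hq0 : (0 : ℝ) < Fintype.card K := by
    have : 0 < Fintype.card K := Fintype.card_pos
    exact_mod_cast this
  refine ⟨c₀ / 2 / (Fintype.card K : ℝ) ^ Q.natDegree, by positivity, A₀ + Q.natDegree, ?_⟩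
  intro n m hm hn _ α A r _ hdeg hadm
  refine ⟨?_, sq_partG n m α A Q r hdeg⟩
  have hnm : A₀ * m + Q.natDegree * m ≤ n := by
    have : (A₀ + Q.natDegree) * m = A₀ * m + Q.natDegree * m := by ring
    omega
  have hQm : Q.natDegree ≤ Q.natDegree * m := Nat.le_mul_of_pos_right _ hm
  have hQn : Q.natDegree ≤ n := by omega
  have hL : A₀ * m ≤ n - Q.natDegree := by omega
  obtain ⟨f₀, hf₀⟩ := sub_SfsG α A Q r hQ n m hQn
  have hAk : A.card ≤ k := by
    have := card_le_univ A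
    rwa [Fintype.card_fin] at this
  have h1 := (hA (n - Q.natDegree) m (PG K Q m) (OmG α A) Q f₀ hm hL (fun P hP => by
      rw [PG, mem_filter, mem_PU] at hP
      refine ⟨hP.1.1, hP.1.2.1, hP.1.2.2, ?_⟩
      exact ((hP.1.2.1.coprime_iff_not_dvd).2 hP.2).symm) (fun P hP => by
      rw [PG, mem_filter, mem_PU] at hP
      exact ⟨(OmG_card α A P).trans hAk, OmG_lt α A hP.1.1 (hadm P hP.1.1 hP.1.2.1 hP.2),
        OmG_deg α A hP.1.1⟩)).1
  have h1' : (1 - 1 / 2 : ℝ) * (∏ P ∈ PG K Q m, (1 - ((OmG α A P).card : ℝ) /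
      (Fintype.card K : ℝ) ^ P.natDegree)) * (Fintype.card K : ℝ) ^ (n - Q.natDegree) ≤
      ((SfsG K α A Q r n m).card : ℝ) := h1.trans (by exact_mod_cast hf₀)
  refine le_trans ?_ h1'
  have h2 := prod_geG (K := K) Q A.card m hm (fun P => (OmG α A P).card) (fun P hP => by
      rw [PG, mem_filter, mem_PU] at hP
      exact ⟨OmG_card α A P, OmG_lt α A hP.1.1 (hadm P hP.1.1 hP.1.2.1 hP.2)⟩)
  have hAk' : (A.card : ℝ) ≤ k := by exact_mod_cast hAk
  have hA0 : (0 : ℝ) ≤ A.card := Nat.cast_nonneg _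
  have h3 : c₀ ≤ Real.exp (-((A.card : ℝ) + (8 * (A.card : ℝ) ^ 3 + 2 * (A.card : ℝ) ^ 2))) := by
    rw [hc₀, Real.exp_le_exp]
    have h4 : (A.card : ℝ) ^ 3 ≤ (k : ℝ) ^ 3 := pow_le_pow_left₀ hA0 hAk' 3
    have h5 : (A.card : ℝ) ^ 2 ≤ (k : ℝ) ^ 2 := pow_le_pow_left₀ hA0 hAk' 2
    linarith
  have hm0 : (0 : ℝ) < m := by exact_mod_cast hm
  have h4 : c₀ / (m : ℝ) ^ A.card ≤ ∏ P ∈ PG K Q m, (1 - ((OmG α A P).card : ℝ) /
      (Fintype.card K : ℝ) ^ P.natDegree) :=
    (div_le_div_of_nonneg_right h3 (by positivity)).trans h2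
  have h5 : (Fintype.card K : ℝ) ^ n =
      (Fintype.card K : ℝ) ^ (n - Q.natDegree) * (Fintype.card K : ℝ) ^ Q.natDegree := by
    rw [← pow_add]
    congr 1
    omega
  calc c₀ / 2 / (Fintype.card K : ℝ) ^ Q.natDegree * (Fintype.card K : ℝ) ^ n / (m : ℝ) ^ A.card
      = (1 - 1 / 2) * (c₀ / (m : ℝ) ^ A.card) * (Fintype.card K : ℝ) ^ (n - Q.natDegree) := by
        rw [h5]
        field_simp
        ring
    _ ≤ _ := by
      apply mul_le_mul_of_nonneg_right _ (by positivity)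
      exact mul_le_mul_of_nonneg_left h4 (by norm_num)

end Pool.Agent.H30.Par
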